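import Pool.Agent.H96.RO1

/-! The oscillation inequality for rough singular integrals fails. -/

namespace Pool.Agent.Results.MP_577a3c_an.Fails

open Set MeasureTheory Metric Pool.Agent.H96.RO
open scoped ENNReal NNReal

/-- the rough singular integral of `f` cut off outside the doubled ball -/
noncomputable def gB {d : ℕ} (Ω f : EuclideanSpace ℝ (Fin d) → ℝ) (c : EuclideanSpace ℝ (Fin d))
    (ρ : ℝ) (x : EuclideanSpace ℝ (Fin d)) : ℝ :=
  ∫ y, Ω (‖y‖⁻¹ • y) / ‖y‖ ^ d * (ball c (2 * ρ))ᶜ.indicator f (x - y)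

/-- the quadratic mean oscillation on the ball -/
noncomputable def osc {d : ℕ} (Ω f : EuclideanSpace ℝ (Fin d) → ℝ) (c : EuclideanSpace ℝ (Fin d))
    (ρ : ℝ) : ℝ≥0∞ :=
  ((volume (ball c ρ))⁻¹ ^ 2 * ∫⁻ x in ball c ρ, ∫⁻ y in ball c ρ,
    ENNReal.ofReal (|gB Ω f c ρ x - gB Ω f c ρ y| ^ 2)) ^ (1 / 2 : ℝ)

/-- the supremum of the `r`-averages over larger balls -/
noncomputable def Mr {d : ℕ} (r : ℝ) (f : EuclideanSpace ℝ (Fin d) → ℝ)
    (c : EuclideanSpace ℝ (Fin d)) (ρ : ℝ) : ℝ≥0∞ :=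
  ⨆ (c' : EuclideanSpace ℝ (Fin d)) (ρ' : ℝ) (_ : ball c ρ ⊆ ball c' ρ'),
    ((volume (ball c' ρ'))⁻¹ * ∫⁻ z in ball c' ρ', ENNReal.ofReal (|f z| ^ r)) ^ (1 / r)

/-- test functions -/
noncomputable def ff (n N : ℕ) (z : EuclideanSpace ℝ (Fin (n + 2))) : ℝ :=
  ∑ i ∈ Finset.range N, (Z n (i + 1)).indicator (fun _ => ((i + 1 : ℕ) : ℝ)) z

variable {n : ℕ}

theorem ff_meas (N : ℕ) : Measurable (ff n N) :=
  Finset.measurable_sum _ fun i _ => measurable_const.indicator (Z_meas _)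

theorem ff_cases (N : ℕ) (z : EuclideanSpace ℝ (Fin (n + 2))) :
    ff n N z = 0 ∨ ∃ i < N, z ∈ Z n (i + 1) ∧ ff n N z = ((i + 1 : ℕ) : ℝ) := by
  by_cases h : ∃ i < N, z ∈ Z n (i + 1)
  · obtain ⟨i, hi, hz⟩ := h
    refine Or.inr ⟨i, hi, hz, ?_⟩
    rw [ff, Finset.sum_eq_single i, indicator_of_mem hz]
    · exact fun j _ hj => indicator_of_notMem (fun h => hj (by simpa using Z_uniq h hz)) _
    · exact fun h => absurd (Finset.mem_range.2 hi) h
  · push Not at h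
    exact Or.inl (Finset.sum_eq_zero fun i hi => indicator_of_notMem (h i (Finset.mem_range.1 hi)) _)

theorem Z_fin (i : ℕ) : volume (Z n (i + 1)) ≠ ⊤ :=
  ((Z_le (by omega)).trans_lt ENNReal.ofReal_lt_top).ne

theorem Mr_le {r : ℝ} (hr : r ∈ Icc (1:ℝ) 2) (N : ℕ) : Mr r (ff n N) 0 1 ≤
    (1 + (volume (ball (0 : EuclideanSpace ℝ (Fin (n + 2))) 1))⁻¹ *
      ENNReal.ofReal (2 * 4 ^ (n + 2))) ^ (1 / r) := by
  refine iSup_le fun c => iSup_le fun ρ => iSup_le fun h => ENNReal.rpow_le_rpow ?_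
    (by have := hr.1; positivity)
  have hc : ‖c‖ < ρ := by simpa using h (mem_ball_self one_pos)
  have hρ : 0 < ρ := (norm_nonneg _).trans_lt hc
  have h1 : ∀ z ∈ ball c ρ, ENNReal.ofReal (|ff n N z| ^ r) ≤ 1 + ∑ i ∈ Finset.range N,
      (Z n (i + 1)).indicator (fun _ => ENNReal.ofReal
        (if RR (i + 1) ≤ 2 * ρ then ((i + 1 : ℕ) : ℝ) ^ 2 else 0)) z := by
    intro z hz
    rcases ff_cases N z with h0 | ⟨i, hi, hz1, h0⟩
    · rw [h0, abs_zero, Real.zero_rpow (by linarith [hr.1])]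
      simp
    · refine le_trans ?_ (le_add_left (Finset.single_le_sum (fun _ _ => bot_le)
        (Finset.mem_range.2 hi)))
      have h2 : ‖z‖ < 2 * ρ := by
        rw [mem_ball, dist_eq_norm] at hz
        linarith [norm_sub_norm_le z c]
      rw [indicator_of_mem hz1, if_pos ((Z_norm (by omega) hz1).1.trans h2.le), h0,
        abs_of_nonneg (Nat.cast_nonneg _), ← Real.rpow_two]
      exact ENNReal.ofReal_le_ofReal (Real.rpow_le_rpow_of_exponent_le (by simp) hr.2)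
  have h2 : ∫⁻ z in ball c ρ, ENNReal.ofReal (|ff n N z| ^ r) ≤
      volume (ball c ρ) + ENNReal.ofReal (2 * (2 * (2 * ρ)) ^ (n + 2)) := by
    refine (setLIntegral_mono' measurableSet_ball h1).trans ?_
    rw [lintegral_add_left measurable_const, setLIntegral_one]
    refine add_le_add le_rfl ((setLIntegral_le_lintegral _ _).trans ?_)
    rw [lintegral_finsetSum _ fun i _ => measurable_const.indicator (Z_meas _)]
    refine le_trans (Finset.sum_le_sum fun i _ => ?_) (le_trans (le_of_eq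
      (ENNReal.ofReal_sum_of_nonneg fun i _ => ?_).symm) (ENNReal.ofReal_le_ofReal
        (geo_sum (n + 2) (by omega) (2 * ρ) (by positivity) N)))
    · rw [lintegral_indicator_const (Z_meas _)]
      split_ifs
      · refine (mul_le_mul_right (Z_le (by omega)) _).trans (le_of_eq ?_)
        rw [← ENNReal.ofReal_mul (by positivity), mul_div_cancel₀ _ (by positivity)]
      · simp
    · have := RR_100 (i + 1)
      split_ifs <;> positivity
  have hv : volume (ball c ρ) = ENNReal.ofReal (ρ ^ (n + 2)) *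
      volume (ball (0 : EuclideanSpace ℝ (Fin (n + 2))) 1) := by
    rw [Measure.addHaar_ball_of_pos _ _ hρ, finrank_euclideanSpace_fin]
  have hp : ENNReal.ofReal (ρ ^ (n + 2)) ≠ 0 := by simpa using pow_pos hρ _
  refine (mul_le_mul_right h2 _).trans ?_
  rw [mul_add]
  refine add_le_add (ENNReal.inv_mul_le_one _) (le_of_eq ?_)
  rw [hv, ENNReal.mul_inv (Or.inl hp) (Or.inl ENNReal.ofReal_ne_top),
    show 2 * (2 * (2 * ρ)) ^ (n + 2) = ρ ^ (n + 2) * (2 * 4 ^ (n + 2)) by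
      rw [← mul_assoc 2 2, mul_pow]; norm_num; ring,
    ENNReal.ofReal_mul (by positivity), mul_mul_mul_comm,
    ENNReal.inv_mul_cancel hp ENNReal.ofReal_ne_top, one_mul]

theorem gap (a : ℝ) (ha : a ∈ Icc (0:ℝ) 1) (N : ℕ) (x y : EuclideanSpace ℝ (Fin (n + 2)))
    (hx : x ∈ ball (0 : EuclideanSpace ℝ (Fin (n + 2))) (1 / 100))
    (hy : y ∈ ball (EuclideanSpace.single (1 : Fin (n + 2)) (1 / 2 : ℝ)) (1 / 100)) :
    (1 / (2000 * (3 * (n + 2)) ^ (n + 2))) * ∑ i ∈ Finset.range N, (1 / (i + 1) : ℝ) ≤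
      gB (fun θ => ind (θ 1 / θ 0) - a) (ff n N) 0 1 y -
        gB (fun θ => ind (θ 1 / θ 0) - a) (ff n N) 0 1 x := by
  set K : EuclideanSpace ℝ (Fin (n + 2)) → ℝ :=
    fun w => (ind ((‖w‖⁻¹ • w) 1 / (‖w‖⁻¹ • w) 0) - a) / ‖w‖ ^ (n + 2) with hK
  have hKm : Measurable K :=
    ((ind_meas.comp (by fun_prop)).sub measurable_const).div (by fun_prop)
  have hind : (ball (0 : EuclideanSpace ℝ (Fin (n + 2))) (2 * 1))ᶜ.indicator (ff n N) = ff n N := by
    refine indicator_eq_self.2 fun z hz hb => ?_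
    rcases ff_cases N z with h0 | ⟨i, -, hz1, -⟩
    · exact hz h0
    · have := (Z_norm (by omega) hz1).1
      rw [mem_ball_zero_iff] at hb
      linarith [RR_100 (i + 1)]
  have hg : ∀ x, gB (fun θ => ind (θ 1 / θ 0) - a) (ff n N) 0 1 x =
      ∫ z, K (x - z) * ff n N z := by
    intro x
    rw [gB, hind, ← integral_sub_left_eq_self _ _ x]
    simp only [sub_sub_cancel, hK]
  have hfi : Integrable (ff n N) := integrable_finsetSum _ fun i _ =>
    (integrableOn_const (Z_fin i)).integrable_indicator (Z_meas _)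
  have hn : ∀ x : EuclideanSpace ℝ (Fin (n + 2)), ‖x‖ ≤ 1 → ∀ i, ∀ z ∈ Z n (i + 1),
      1 ≤ ‖x - z‖ ∧ ‖x - z‖ ≤ 3 * (n + 2) * RR (i + 1) := by
    intro x hx i z hz
    obtain ⟨h1, h2⟩ := Z_norm (by omega) hz
    have h3 := RR_100 (i + 1)
    have h4 : (0:ℝ) ≤ n := Nat.cast_nonneg n
    refine ⟨?_, (norm_sub_le _ _).trans (by nlinarith)⟩
    rw [norm_sub_rev]
    linarith [norm_sub_norm_le z x]
  have hint : ∀ x : EuclideanSpace ℝ (Fin (n + 2)), ‖x‖ ≤ 1 →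
      Integrable fun z => K (x - z) * ff n N z := by
    intro x hx
    refine hfi.norm.mono' ((hKm.comp (by fun_prop)).mul (ff_meas N)).aestronglyMeasurable
      (Filter.Eventually.of_forall fun z => ?_)
    rcases ff_cases N z with h0 | ⟨i, -, hz1, -⟩
    · simp [h0]
    · rw [norm_mul]
      refine mul_le_of_le_one_left (norm_nonneg _) ?_
      simp only [hK]
      rw [norm_div, norm_pow, norm_norm]
      refine div_le_one_of_le₀ (le_trans ?_ (one_le_pow₀ (hn x hx i z hz1).1)) (by positivity)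
      have := ind_mem ((‖x - z‖⁻¹ • (x - z)) 1 / (‖x - z‖⁻¹ • (x - z)) 0)
      exact abs_le.2 ⟨by linarith [ha.2], by linarith [ha.1]⟩
  have hx1 : ‖x‖ < 1 / 100 := mem_ball_zero_iff.1 hx
  have hy0 : ‖y - EuclideanSpace.single (1 : Fin (n + 2)) (1 / 2 : ℝ)‖ < 1 / 100 := by
    rwa [mem_ball, dist_eq_norm] at hy
  have hy1 : ‖y‖ ≤ 1 := by
    have := norm_sub_norm_le y (EuclideanSpace.single (1 : Fin (n + 2)) (1 / 2 : ℝ))
    rw [PiLp.norm_single] at this
    norm_num at this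
    linarith
  have hKv : ∀ x : EuclideanSpace ℝ (Fin (n + 2)), ‖x‖ ≤ 1 → ∀ i, ∀ z ∈ Z n (i + 1),
      K (x - z) = (ind ((x 1 - z 1) / (x 0 - z 0)) - a) * (‖x - z‖ ^ (n + 2))⁻¹ ∧
      ((3 * (n + 2) * RR (i + 1)) ^ (n + 2))⁻¹ ≤ (‖x - z‖ ^ (n + 2))⁻¹ := by
    intro x hx i z hz
    obtain ⟨h1, h2⟩ := hn x hx i z hz
    refine ⟨?_, inv_anti₀ (by positivity) (pow_le_pow_left₀ (norm_nonneg _) h2 _)⟩
    simp only [hK, PiLp.smul_apply, PiLp.sub_apply, smul_eq_mul]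
    rw [mul_div_mul_left _ _ (inv_ne_zero (by linarith)), div_eq_mul_inv]
  rw [hg, hg, ← integral_sub (hint y hy1) (hint x (by linarith))]
  have hlow : ∀ z, ∑ i ∈ Finset.range N, (Z n (i + 1)).indicator (fun _ => ((i + 1 : ℕ) : ℝ) *
      ((3 * (n + 2) * RR (i + 1)) ^ (n + 2))⁻¹) z ≤
      K (y - z) * ff n N z - K (x - z) * ff n N z := by
    intro z
    rw [← sub_mul, ff, Finset.mul_sum]
    refine Finset.sum_le_sum fun i _ => ?_
    by_cases hz : z ∈ Z n (i + 1)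
    · rw [indicator_of_mem hz, indicator_of_mem hz, mul_comm]
      refine mul_le_mul_of_nonneg_right ?_ (Nat.cast_nonneg _)
      obtain ⟨a1, a2⟩ := hKv x (by linarith) i z hz
      obtain ⟨b1, b2⟩ := hKv y hy1 i z hz
      have c1 := (ind_val (by omega) hz.1.1 hz.1.2.1 hz.2 (x0 := x 0) (x1 := x 1)
        ((PiLp.norm_apply_le x 0).trans hx1.le)).1 ((PiLp.norm_apply_le x 1).trans hx1.le)
      have c2 := (ind_val (by omega) hz.1.1 hz.1.2.1 hz.2 (x0 := y 0) (x1 := y 1)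
        (by simpa using (PiLp.norm_apply_le _ 0).trans hy0.le)).2
        (by simpa using (PiLp.norm_apply_le _ 1).trans hy0.le)
      rw [a1, b1, c1, c2]
      nlinarith [mul_le_mul_of_nonneg_left a2 ha.1, mul_le_mul_of_nonneg_left b2 (sub_nonneg.2 ha.2)]
    · simp [hz]
  have hii : ∀ i ∈ Finset.range N, Integrable ((Z n (i + 1)).indicator
      (fun _ => ((i + 1 : ℕ) : ℝ) * ((3 * (n + 2) * RR (i + 1)) ^ (n + 2))⁻¹)) := fun i _ =>
    (integrableOn_const (Z_fin i)).integrable_indicator (Z_meas _)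
  refine le_trans ?_ (integral_mono (integrable_finsetSum _ hii)
    ((hint y hy1).sub (hint x (by linarith))) hlow)
  rw [integral_finsetSum _ hii, Finset.mul_sum]
  refine Finset.sum_le_sum fun i _ => ?_
  rw [integral_indicator_const _ (Z_meas _), smul_eq_mul]
  have h3 := RR_100 (i + 1)
  refine le_trans ?_ (mul_le_mul_of_nonneg_right (Z_ge (by omega)) (by positivity))
  have e : RR (i + 1) ^ (n + 2) / (1000 * (((i + 1 : ℕ) : ℝ) * (((i + 1 : ℕ) : ℝ) + 1))) *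
      (((i + 1 : ℕ) : ℝ) * ((3 * (n + 2) * RR (i + 1)) ^ (n + 2))⁻¹) =
      1 / (2000 * (3 * (n + 2)) ^ (n + 2)) * (2 / (i + 2)) := by
    rw [mul_pow (3 * (n + 2) : ℝ)]
    push_cast
    field_simp
    ring
  rw [e]
  refine mul_le_mul_of_nonneg_left ?_ (by positivity)
  rw [div_le_div_iff₀ (by positivity) (by positivity)]
  linarith [Nat.cast_nonneg (α := ℝ) i]

theorem result (d : ℕ) (hd : 2 ≤ d) : ∃ Ω : EuclideanSpace ℝ (Fin d) → ℝ, Measurable Ω ∧
    (∀ θ, |Ω θ| ≤ 1) ∧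
    ∫ θ : sphere (0 : EuclideanSpace ℝ (Fin d)) 1, Ω θ ∂volume.toSphere = 0 ∧
    ∀ r ∈ Icc (1:ℝ) 2, ∀ C : ℝ≥0, ∃ (c : EuclideanSpace ℝ (Fin d)) (ρ : ℝ)
      (f : EuclideanSpace ℝ (Fin d) → ℝ), 0 < ρ ∧ Measurable f ∧ (∃ A, ∀ z, |f z| ≤ A) ∧
      HasCompactSupport f ∧ C * Mr r f c ρ < osc Ω f c ρ := by
  obtain ⟨n, rfl⟩ : ∃ n, d = n + 2 := ⟨d - 2, by omega⟩
  set a : ℝ := ⨍ θ : sphere (0 : EuclideanSpace ℝ (Fin (n + 2))) 1,
    ind ((θ : EuclideanSpace ℝ (Fin (n + 2))) 1 / (θ : EuclideanSpace ℝ (Fin (n + 2))) 0)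
      ∂volume.toSphere with ha'
  have ha : a ∈ Icc (0:ℝ) 1 := by
    rw [ha', average_eq, smul_eq_mul]
    refine ⟨mul_nonneg (inv_nonneg.2 measureReal_nonneg) (integral_nonneg fun θ => (ind_mem _).1),
      inv_mul_le_one_of_le₀ ?_ measureReal_nonneg⟩
    refine (Real.le_norm_self _).trans ((norm_integral_le_of_norm_le_const (C := 1)
      (Filter.Eventually.of_forall fun θ => ?_)).trans (le_of_eq (one_mul _)))
    rw [Real.norm_eq_abs, abs_of_nonneg (ind_mem _).1]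
    exact (ind_mem _).2
  refine ⟨fun θ => ind (θ 1 / θ 0) - a, (ind_meas.comp (by fun_prop)).sub measurable_const,
    fun θ => abs_le.2 ⟨by linarith [(ind_mem (θ 1 / θ 0)).1, ha.2],
      by linarith [(ind_mem (θ 1 / θ 0)).2, ha.1]⟩, integral_sub_average _ _, fun r hr C => ?_⟩
  set v := volume (ball (0 : EuclideanSpace ℝ (Fin (n + 2))) 1) with hv
  have hv0 : v ≠ 0 := (measure_ball_pos _ _ one_pos).ne'
  have hv1 : v ≠ ⊤ := measure_ball_lt_top.ne
  set W : ℝ≥0∞ := C * (1 + v⁻¹ * ENNReal.ofReal (2 * 4 ^ (n + 2))) ^ (1 / r) with hW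
  have hW1 : W ≠ ⊤ := ENNReal.mul_ne_top ENNReal.coe_ne_top (ENNReal.rpow_ne_top_of_nonneg
    (by have := hr.1; positivity) (ENNReal.add_ne_top.2 ⟨ENNReal.one_ne_top,
      ENNReal.mul_ne_top (ENNReal.inv_ne_top.2 hv0) ENNReal.ofReal_ne_top⟩))
  set B1 := ball (0 : EuclideanSpace ℝ (Fin (n + 2))) (1 / 100) with hB1
  set B2 := ball (EuclideanSpace.single (1 : Fin (n + 2)) (1 / 2 : ℝ)) (1 / 100) with hB2
  set κ : ℝ≥0∞ := v⁻¹ ^ 2 * (volume B2 * volume B1) with hκ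
  have hκ0 : κ ≠ 0 := mul_ne_zero (pow_ne_zero _ (ENNReal.inv_ne_zero.2 hv1))
    (mul_ne_zero (measure_ball_pos _ _ (by norm_num)).ne' (measure_ball_pos _ _ (by norm_num)).ne')
  have hκ1 : κ ≠ ⊤ := ENNReal.mul_ne_top (ENNReal.pow_ne_top (ENNReal.inv_ne_top.2 hv0))
    (ENNReal.mul_ne_top measure_ball_lt_top.ne measure_ball_lt_top.ne)
  obtain ⟨N, hN⟩ := ((Real.tendsto_sum_range_one_div_nat_succ_atTop.const_mul_atTop
    (show (0:ℝ) < 1 / (2000 * (3 * (n + 2)) ^ (n + 2)) by positivity)).eventually_ge_atTop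
      ((W ^ 2 / κ).toReal + 1)).exists
  set A := (1 / (2000 * (3 * (n + 2)) ^ (n + 2)) : ℝ) *
    ∑ i ∈ Finset.range N, (1 / (i + 1) : ℝ) with hA
  have hT := ENNReal.toReal_nonneg (a := W ^ 2 / κ)
  refine ⟨0, 1, ff n N, one_pos, ff_meas N, ⟨N, fun z => ?_⟩, ?_, ?_⟩
  · rcases ff_cases N z with h0 | ⟨i, hi, -, h0⟩
    · simp [h0]
    · rw [h0, abs_of_nonneg (Nat.cast_nonneg _)]
      exact_mod_cast hi
  · refine HasCompactSupport.intro (isCompact_closedBall 0 (2 * (n + 2) * RR N)) fun z hz => ?_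
    rcases ff_cases N z with h0 | ⟨i, hi, hz1, -⟩
    · exact h0
    · refine absurd (mem_closedBall_zero_iff.2 ((Z_norm (by omega) hz1).2.trans ?_)) hz
      unfold RR
      gcongr
      · norm_num
      · omega
  refine (mul_le_mul_right (Mr_le hr N) _).trans_lt ?_
  rw [← hv, ← hW, osc, ← hv, one_div (2:ℝ), ENNReal.lt_rpow_inv_iff (by norm_num),
    ENNReal.rpow_two]
  have h1 : W ^ 2 < κ * ENNReal.ofReal (A ^ 2) := by
    rw [mul_comm, ← ENNReal.div_lt_iff (Or.inl hκ0) (Or.inl hκ1),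
      ENNReal.lt_ofReal_iff_toReal_lt (ENNReal.div_ne_top (ENNReal.pow_ne_top hW1) hκ0)]
    nlinarith
  refine h1.trans_le ?_
  rw [hκ, mul_assoc]
  refine mul_le_mul_right ?_ _
  have s1 : B1 ⊆ ball 0 1 := ball_subset_ball (by norm_num)
  have s2 : B2 ⊆ ball 0 1 := ball_subset_ball' (by
    rw [dist_zero_right, PiLp.norm_single]
    norm_num)
  refine le_trans ?_ (lintegral_mono_set s1)
  rw [mul_right_comm, ← setLIntegral_const]
  refine setLIntegral_mono' measurableSet_ball fun x hx => le_trans ?_ (lintegral_mono_set s2)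
  rw [mul_comm, ← setLIntegral_const]
  refine setLIntegral_mono' measurableSet_ball fun y hy => ENNReal.ofReal_le_ofReal ?_
  rw [abs_sub_comm]
  exact pow_le_pow_left₀ (by linarith) ((gap a ha N x y hx hy).trans (le_abs_self _)) 2

end Pool.Agent.Results.MP_577a3c_an.Fails
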